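import Pool.Agent.Y882.JR.Pr
import Pool.Agent.W366.DC.SFX
import Pool.Agent.Y445.JRB.Buch
import Pool.Agent.Y781.JR.Dens

/-!
# The linear sieve for `n ^ 2 + a` in arbitrarily short intervals

For the numbers `n ^ 2 + a` with `n` in an interval `(N, N + X ^ h]` the remainder terms of the
sieve are trivial only up to the level `X ^ h`.  Here the theorem of Jurkat and Richert is proved
with level of distribution `X ^ τ` for every `1 / 2 ≤ τ < 1` (however small `h` is), for all but at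
most `X ^ (2 τ - h + ε)` of the `N ≤ X`: the numbers `n` in the interval such that `n ^ 2 + a` has no
prime factor below `X ^ (τ / s)` number between `f(s) - δ` and `F(s) + δ` times their expected
number, with the functions `F, f` of the linear sieve.  With `s = 1`: at most `(2 C / τ + δ)
X ^ h / log X` of the `n` in the interval give a prime `|n ^ 2 + a|`; for `τ = 1 / 2` this is
`8 + δ` times the number predicted by Hardy and Littlewood, with at most `X ^ (1 - h + ε)`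
exceptional `N`.
-/

set_option autoImplicit false

namespace Pool.Agent.Results.MP_f1a94e_nt.LinearSieveShortIntervals

open Filter Finset Topology

/-- The functions of the linear sieve (Jurkat and Richert): the continuous solutions on `[1, ∞)` of
`s F(s) = 2 e ^ γ` for `1 ≤ s ≤ 3`, `f(s) = 0` for `1 ≤ s ≤ 2`, `(s F(s))' = f(s - 1)` for `s ≥ 3`
and `(s f(s))' = F(s - 1)` for `s ≥ 2`. -/
structure LinearSieve (F f : ℝ → ℝ) : Prop where
  continuous_upper : ContinuousOn F (Set.Ici 1)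
  continuous_lower : ContinuousOn f (Set.Ici 1)
  start_upper : ∀ s : ℝ, 1 ≤ s → s ≤ 3 → s * F s = 2 * Real.exp Real.eulerMascheroniConstant
  start_lower : ∀ s : ℝ, 1 ≤ s → s ≤ 2 → f s = 0
  upper : ∀ s : ℝ, 3 ≤ s →
    s * F s = 2 * Real.exp Real.eulerMascheroniConstant + ∫ x in (3 : ℝ)..s, f (x - 1)
  lower : ∀ s : ℝ, 2 ≤ s → s * f s = ∫ x in (2 : ℝ)..s, F (x - 1)

/-- The sieve density of `n ^ 2 + a`: the product over the primes `p < z` of `1 - ρ(p) / p`, where
`ρ(p)` is the number of the residues `m` modulo `p` with `p ∣ m ^ 2 + a`. -/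
noncomputable def density (a : ℤ) (z : ℝ) : ℝ :=
  ∏ p ∈ (Finset.range ⌈z⌉₊).filter Nat.Prime,
    (1 - (((Finset.range p).filter (fun m : ℕ => (p : ℤ) ∣ (m : ℤ) ^ 2 + a)).card : ℝ) / p)

open Classical in
/-- The number of the `n` in `(N, N + H]` such that `n ^ 2 + a` has no prime factor below `z`. -/
noncomputable def roughCount (a : ℤ) (z : ℝ) (N H : ℕ) : ℕ :=
  ((Finset.Ioc N (N + H)).filter
    (fun n : ℕ => ∀ p : ℕ, p.Prime → (p : ℤ) ∣ (n : ℤ) ^ 2 + a → z ≤ p)).card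

/-- The number of the `n` in `(N, N + H]` such that `|n ^ 2 + a|` is prime. -/
def primeCount (a : ℤ) (N H : ℕ) : ℕ :=
  ((Finset.Ioc N (N + H)).filter (fun n : ℕ => ((n : ℤ) ^ 2 + a).natAbs.Prime)).card

open Classical in
/-- **The linear sieve for `n ^ 2 + a` in arbitrarily short intervals with level `X ^ τ`.** -/
theorem result :
    ∃ F f : ℝ → ℝ, LinearSieve F f ∧ (∀ s : ℝ, 1 ≤ s → 1 ≤ F s ∧ f s ≤ 1) ∧
      Tendsto F atTop (𝓝 1) ∧ Tendsto f atTop (𝓝 1) ∧
      ∀ a : ℤ, ¬ IsSquare (-a) → ∃ C : ℝ, 0 < C ∧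
        Tendsto (fun N : ℕ => density a N /
          ∏ p ∈ (Finset.range N).filter Nat.Prime, (1 - 1 / (p : ℝ))) atTop (𝓝 C) ∧
        Tendsto (fun z : ℝ => density a z * Real.log z) atTop
          (𝓝 (C * Real.exp (-Real.eulerMascheroniConstant))) ∧
        ∀ τ h δ ε : ℝ, 1 / 2 ≤ τ → τ < 1 → 0 < h → h ≤ τ → 0 < δ → 0 < ε →
          (∀ s : ℝ, 1 ≤ s → ∀ᶠ X : ℕ in atTop,
            (((Finset.Icc 1 X).filter (fun N : ℕ =>
              ¬ ((f s - δ) * ((X : ℝ) ^ h * density a ((X : ℝ) ^ (τ / s))) ≤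
                  (roughCount a ((X : ℝ) ^ (τ / s)) N ⌊(X : ℝ) ^ h⌋₊ : ℝ) ∧
                (roughCount a ((X : ℝ) ^ (τ / s)) N ⌊(X : ℝ) ^ h⌋₊ : ℝ) ≤
                  (F s + δ) * ((X : ℝ) ^ h * density a ((X : ℝ) ^ (τ / s)))))).card : ℝ) ≤
              (X : ℝ) ^ (2 * τ - h + ε)) ∧
          (∀ᶠ X : ℕ in atTop,
            (((Finset.Icc 1 X).filter (fun N : ℕ =>
              ¬ ((primeCount a N ⌊(X : ℝ) ^ h⌋₊ : ℝ) ≤
                  (2 * C / τ + δ) * ((X : ℝ) ^ h / Real.log X)))).card : ℝ) ≤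
              (X : ℝ) ^ (2 * τ - h + ε)) := by
  obtain ⟨A0, F, f, hSF⟩ := Pool.Agent.W366.DC.SFX
  have hA : A0 = 2 * Real.exp Real.eulerMascheroniConstant := Pool.Agent.Y882.JR.A0_eq Pool.Agent.Y445.JRB.t hSF
  refine ⟨F, f, ?_, fun s hs => ⟨hSF.F1 s hs, hSF.f1 s hs⟩, Pool.Agent.Y882.JR.F_lim hSF,
    Pool.Agent.Y882.JR.f_lim hSF, ?_⟩
  · constructor
    · exact hSF.cF
    · exact hSF.cf
    · intro s h1 h3
      rw [hSF.F3 s h1 h3, ← hA]
      have : s ≠ 0 := by linarith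
      field_simp
    · exact hSF.f2
    · intro s hs
      rw [← hA]
      exact hSF.eF s hs
    · exact hSF.ef
  · intro a ha
    obtain ⟨C, hC0, hC1, hC2⟩ := Pool.Agent.Y781.JR.t a ha
    refine ⟨C, hC0, hC1, hC2, ?_⟩
    intro τ h δ ε h1 h2 h3 h4 h5 h6
    constructor
    · intro s hs
      exact Pool.Agent.Y882.JR.finJR A0 F f hSF a ha τ s h δ ε h1 h2 hs h3 (by linarith) h5 h6
    · exact Pool.Agent.Y882.JR.prime_upper hSF hA a ha C hC0 hC2 τ h δ ε h1 h2 h3 h4 h5 h6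

end Pool.Agent.Results.MP_f1a94e_nt.LinearSieveShortIntervals
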