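import Pool.Agent.Y859.SP.GLines

set_option autoImplicit false

/-!
# Norms on the lines of quadratic orders: density and gap laws, uniformly in the line
-/

namespace Pool.Agent.Results.MP_f1a94e_nt.LinesInQuadraticOrders

open Finset Filter

/-- The norm of `(a₁ m + b₁) + (a₂ m + b₂) √Δ`. For `Δ = -1` these are the sums of two squares
`(a₁ m + b₁) ^ 2 + (a₂ m + b₂) ^ 2`, the norms of the Gaussian integers on a line; the line `m + i`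
gives `m ^ 2 + 1`. -/
def norm (Δ a₁ b₁ a₂ b₂ m : ℤ) : ℤ := (a₁ * m + b₁) ^ 2 - Δ * (a₂ * m + b₂) ^ 2

/-- The norms have no fixed prime divisor. -/
def Admissible (Δ a₁ b₁ a₂ b₂ : ℤ) : Prop :=
  ∀ p : ℕ, p.Prime → ∃ m : ℕ, ¬ (p : ℤ) ∣ norm Δ a₁ b₁ a₂ b₂ m

/-- The norm at `m` has at most `4 A r` prime factors (with multiplicity), all of them larger than
`X ^ (1 / r)`. -/
def Good (Δ a₁ b₁ a₂ b₂ : ℤ) (A r X m : ℕ) : Prop :=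
  (norm Δ a₁ b₁ a₂ b₂ m).natAbs.primeFactorsList.length ≤ 4 * A * r ∧
    ∀ p : ℕ, p.Prime → (p : ℤ) ∣ norm Δ a₁ b₁ a₂ b₂ m → (X : ℝ) ^ (1 / (r : ℝ)) < (p : ℝ)

open Classical in
/-- The sieve density: the product of `1 - ν(p) / p` over the primes `p ≤ X ^ (1 / r)`, where `ν(p)` is
the number of the `m` mod `p` with `p ∣ norm`. -/
noncomputable def V (Δ a₁ b₁ a₂ b₂ : ℤ) (r X : ℕ) : ℝ :=
  ∏ p ∈ (Finset.range (⌊(X : ℝ) ^ (1 / (r : ℝ))⌋₊ + 1)).filter Nat.Prime,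
    (1 - (((Finset.range p).filter (fun m : ℕ => (p : ℤ) ∣ norm Δ a₁ b₁ a₂ b₂ m)).card : ℝ) / (p : ℝ))

open Classical in
/-- The number of the good `m` in `(Z, Z + Y]` with fewer than `l` good integers in `[m - T, m)`. -/
noncomputable def Near (Δ a₁ b₁ a₂ b₂ : ℤ) (A r X l T Z Y : ℕ) : ℕ :=
  ((Finset.Ioc Z (Z + Y)).filter (fun m => Good Δ a₁ b₁ a₂ b₂ A r X m ∧
    ((Finset.Ico (m - T) m).filter (fun n => Good Δ a₁ b₁ a₂ b₂ A r X n)).card < l)).card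

open Pool.Agent.TH464.PO Pool.Agent.W123.RP Pool.Agent.Y859.SP Pool.Agent.W123.RU.Poly
open Pool.Agent.Y859.SP.GL (gl V_gl sf_gl V_eq hyp_gl ca_ne ca)
open Pool.Agent.W123.RU (level_low)

open Classical in
/-- **All lines with coefficients up to `X ^ A`**, for every fixed nonsquare `Δ`: in every interval of
length at least `X ^ θ` inside `[0, X ^ A]` the almost prime norms have the expected density
`V ≥ v / log(X) ^ 2`, and their distances follow the Gamma laws of a Poisson process. -/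
theorem result : ∃ v : ℝ, 0 < v ∧ ∀ Δ : ℤ, ¬ IsSquare Δ → ∀ (A : ℕ) (θ : ℝ), 0 < θ →
    ∀ (l0 : ℕ) (x0 ε : ℝ), 0 < ε → ∃ r0 : ℕ, ∀ r : ℕ, r0 ≤ r → ∀ᶠ X : ℕ in atTop,
      ∀ a₁ b₁ a₂ b₂ : ℤ, |a₁| ≤ (X : ℤ) ^ A → |b₁| ≤ (X : ℤ) ^ A → |a₂| ≤ (X : ℤ) ^ A →
        |b₂| ≤ (X : ℤ) ^ A → a₁ * b₂ - a₂ * b₁ ≠ 0 → Admissible Δ a₁ b₁ a₂ b₂ →
      v / Real.log X ^ 2 ≤ V Δ a₁ b₁ a₂ b₂ r X ∧
      ∀ Z Y : ℕ, (X : ℝ) ^ θ ≤ Y → Z + Y ≤ X ^ A →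
      ∀ l T : ℕ, (l ≤ l0 ∨ T * V Δ a₁ b₁ a₂ b₂ r X ≤ x0) →
        |(Near Δ a₁ b₁ a₂ b₂ A r X l T Z Y : ℝ) -
          Y * V Δ a₁ b₁ a₂ b₂ r X * ∑ j ∈ Finset.range l,
            Real.exp (-(T * V Δ a₁ b₁ a₂ b₂ r X)) * (T * V Δ a₁ b₁ a₂ b₂ r X) ^ j / j.factorial| ≤
          ε * (Y * V Δ a₁ b₁ a₂ b₂ r X) := by
  obtain ⟨v, hv, hVlo⟩ := V_lower_unif 2
  refine ⟨v, hv, ?_⟩
  intro Δ hΔ A θ hθ l0 x0 ε hε
  obtain ⟨r0, B, h0⟩ := gap_unif_all (1 * 2) (by norm_num)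
    (((1 : ℕ) : ℝ) ^ 2 * (1 + 2 * ((2 : ℕ) : ℝ) * (((2 * A + 1 : ℕ) : ℝ) + 1)) + 1) θ
    (by positivity) hθ l0 x0 ε hε
  refine ⟨max r0 2, ?_⟩
  intro r hr
  have hr2 : 2 ≤ r := (le_max_right _ _).trans hr
  have hrr : (2 : ℝ) ≤ r := by exact_mod_cast hr2
  have hpow2 : Tendsto (fun X : ℕ => (X : ℝ) ^ (1 / (2 * r : ℝ))) atTop atTop :=
    (tendsto_rpow_atTop (by positivity)).comp tendsto_natCast_atTop_atTop
  filter_upwards [h0 r ((le_max_left _ _).trans hr), SysU.ctl_sys (k := 1) 2 (2 * A + 1),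
    sf_gl Δ A r (by omega), V_gl Δ hΔ A B r hr2, hpow2.eventually_ge_atTop 3,
    eventually_ge_atTop (16 + 2 * (1 + Δ.natAbs))] with X hX hctl hap hVs hX3 hX16
  intro a₁ b₁ a₂ b₂ h1 h2 h3 h4 hdet hadm
  have hXz : 2 * (1 + |Δ|) ≤ (X : ℤ) := by
    rw [← Int.natCast_natAbs]
    have : 2 * (1 + Δ.natAbs) ≤ X := by omega
    exact_mod_cast this
  have hca := ca_ne Δ a₁ b₁ a₂ b₂ hΔ hdet
  obtain ⟨s, hs, hpos⟩ : ∃ s : ℤ, (s = 1 ∨ s = -1) ∧ 0 < s * ca Δ a₁ a₂ := by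
    rcases lt_or_gt_of_ne hca with h | h
    · exact ⟨-1, Or.inr rfl, by linarith⟩
    · exact ⟨1, Or.inl rfl, by linarith⟩
  have hsu : IsUnit s := by
    rcases hs with h | h
    · rw [h]; exact isUnit_one
    · rw [h]; exact isUnit_one.neg
  have hyp := hyp_gl s Δ hs hΔ A X hXz a₁ b₁ a₂ b₂ h1 h2 h3 h4 hdet hpos hadm
  have hc := hctl (gl s Δ a₁ b₁ a₂ b₂) hyp
  have hV : Vq (Q (gl s Δ a₁ b₁ a₂ b₂)) ⌊(X : ℝ) ^ (1 / (r : ℝ))⌋₊ = V Δ a₁ b₁ a₂ b₂ r X :=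
    V_eq s Δ a₁ b₁ a₂ b₂ hsu _
  refine ⟨?_, ?_⟩
  · rw [← hV]
    obtain ⟨hy1, hy2, hy3, hy4⟩ := level_low r hr2 X (by omega) (by linarith)
    have hX16r : (16 : ℝ) ≤ X := by exact_mod_cast (by omega : 16 ≤ X)
    have hL0 : 0 < Real.log X := Real.log_pos (by linarith)
    have hlogy : 0 < Real.log ⌊(X : ℝ) ^ (1 / (r : ℝ))⌋₊ := lt_of_lt_of_le (by positivity) hy2
    refine le_trans ?_ (hVlo (Q (gl s Δ a₁ b₁ a₂ b₂)) hc.per hc.adm _ hy4)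
    apply div_le_div_of_nonneg_left hv.le (by positivity)
    exact pow_le_pow_left₀ hlogy.le hy3 2
  intro Z Y hY hZY l T hlT
  have g1 := hX (Q (gl s Δ a₁ b₁ a₂ b₂)) hc (hVs s a₁ b₁ a₂ b₂ hsu h1 h2 h3 h4 hdet) Z Y hY l T
    (by rw [hV]; exact hlT)
  rw [hV] at g1
  have hN : Near Δ a₁ b₁ a₂ b₂ A r X l T Z Y =
      Pk (Sf (Q (gl s Δ a₁ b₁ a₂ b₂)) ⌊(X : ℝ) ^ (1 / (r : ℝ))⌋₊) l T Z Y := by
    unfold Near Pk
    congr 1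
    apply Finset.filter_congr
    intro n hn
    rw [mem_Ioc] at hn
    have e1 : Sf (Q (gl s Δ a₁ b₁ a₂ b₂)) ⌊(X : ℝ) ^ (1 / (r : ℝ))⌋₊ n ↔
        Good Δ a₁ b₁ a₂ b₂ A r X n := hap s a₁ b₁ a₂ b₂ hsu h1 h2 h3 h4 n (hn.2.trans hZY)
    have e2 : (Finset.Ico (n - T) n).filter (fun m => Good Δ a₁ b₁ a₂ b₂ A r X m) =
        (Finset.Ico (n - T) n).filter
          (Sf (Q (gl s Δ a₁ b₁ a₂ b₂)) ⌊(X : ℝ) ^ (1 / (r : ℝ))⌋₊) := by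
      apply Finset.filter_congr
      intro m hm
      rw [mem_Ico] at hm
      exact (hap s a₁ b₁ a₂ b₂ hsu h1 h2 h3 h4 m (hm.2.le.trans (hn.2.trans hZY))).symm
    rw [e1, e2]
  rw [hN]
  exact g1

end Pool.Agent.Results.MP_f1a94e_nt.LinesInQuadraticOrders
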