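import Pool.Agent.Y843.AC.Lin
import Pool.Agent.Y843.QD.PT

/-!
# Progressions of the `m` with `m ^ 2 + 1` prime or almost prime: the exact order of their number

The number of the progressions of `k` terms, with differences at most `D`, of integers `m` of an interval of
length `X` for which `m ^ 2 + 1` has at most three prime factors, is of the order `X D / log ^ k X`, and
`Q(x) = #{m ≤ x : m ^ 2 + 1 prime}` is of the conjectured order `x / log x` if and only if the number of the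
progressions of such `m` is of the order `x D / log ^ k x`.
-/

set_option autoImplicit false

namespace Pool.Agent.Results.MP_f1a94e_nt.ProgressionCounts

open Finset

open Classical in
/-- The integers `A < m ≤ A + X` for which `m ^ 2 + 1` has at most three prime factors, counted with
multiplicity, all of them at least `X ^ (1/4)`. -/
noncomputable def P3 (A X : ℕ) : Finset ℕ :=
  (Ioc A (A + X)).filter (fun m => (m ^ 2 + 1).primeFactorsList.length ≤ 3 ∧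
    ∀ p : ℕ, p.Prime → p ∣ m ^ 2 + 1 → (X : ℝ) ^ (1 / 4 : ℝ) ≤ p)

/-- `m ^ 2 + 1` has no prime factor `≤ X ^ (1/u)`. -/
def R (u X m : ℕ) : Prop := ∀ p : ℕ, p.Prime → p ∣ m ^ 2 + 1 → (X : ℝ) ^ (1 / (u : ℝ)) < p

/-- The `m` in `[1, x]` for which `m ^ 2 + 1` is prime. -/
def Q (x : ℕ) : Finset ℕ := (Icc 1 x).filter (fun m => (m ^ 2 + 1).Prime)

open Classical in
/-- The number of the progressions `a, a + d, …, a + (k - 1) d` in `S` with `1 ≤ d ≤ D`. -/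
noncomputable def AP (k D : ℕ) (S : Finset ℕ) : ℕ :=
  ((S ×ˢ Icc 1 D).filter (fun q => ∀ j < k, q.1 + j * q.2 ∈ S)).card

open Classical in
/-- The elements of `S` which lie in no progression of `k` elements of `S` with a difference in `[1, D]`. -/
noncomputable def outside (k : ℕ) (D : ℝ) (S : Finset ℕ) : Finset ℕ :=
  S.filter (fun n => ¬ ∃ a d : ℕ, 1 ≤ d ∧ (d : ℝ) ≤ D ∧ (∀ j < k, a + j * d ∈ S) ∧ ∃ j < k, n = a + j * d)

/-- The expected order `X D / log ^ k X` of the number of progressions. -/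
noncomputable def E (k X D : ℕ) : ℝ := (X : ℝ) * D * (1 / Real.log X) ^ k

lemma AP_eq (k D : ℕ) (S : Finset ℕ) : AP k D S = (Pool.Agent.Y843.AC.APs k D S).card := rfl

theorem qv_eq (n : ℕ) : Pool.Agent.Y843.QD.qv 1 0 1 n = n ^ 2 + 1 := by
  unfold Pool.Agent.Y843.QD.qv
  have : (1 * (n : ℤ) ^ 2 + 0 * n + 1) = ((n ^ 2 + 1 : ℕ) : ℤ) := by push_cast; ring
  rw [this, Int.natAbs_natCast]

theorem adm (p : ℕ) (hp : p.Prime) : ∃ n : ℕ, ¬ (p : ℤ) ∣ 1 * (n : ℤ) ^ 2 + 0 * n + 1 := by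
  refine ⟨0, ?_⟩
  intro h
  norm_num at h
  have h1 : (p : ℤ) ∣ ((1 : ℕ) : ℤ) := by exact_mod_cast h
  rw [Int.natCast_dvd_natCast, Nat.dvd_one] at h1
  exact hp.one_lt.ne' h1

theorem nsq : ¬ IsSquare ((0 : ℤ) ^ 2 - 4 * 1 * 1) := by
  rintro ⟨r, hr⟩
  nlinarith [mul_self_nonneg r]

theorem fc : Pool.Agent.Y843.AC.FC 2 1 (Pool.Agent.Y843.QD.Zq 1 0 1) :=
  Pool.Agent.Y843.AC.FC_lin (Pool.Agent.Y843.QD.lin_quad 1 0 1 one_ne_zero nsq adm)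

theorem avoid {n p : ℕ} (hp : p.Prime) : n % p ∈ Pool.Agent.Y843.QD.Zq 1 0 1 p ↔ p ∣ n ^ 2 + 1 := by
  rw [Pool.Agent.Y843.QD.mem_Zq hp.pos, ← Pool.Agent.Y843.QD.dvd_qv, qv_eq]

lemma R_av {u X m : ℕ} (h : R u X m) : ∀ p : ℕ, p.Prime → (p : ℝ) ≤ (X : ℝ) ^ (1 / (u : ℝ)) →
    m % p ∉ Pool.Agent.Y843.QD.Zq 1 0 1 p := by
  intro p hp hpX hcon
  have := h p hp ((avoid hp).1 hcon)
  linarith

theorem up (k : ℕ) (hk : 1 ≤ k) (u : ℕ) (hu : 1 ≤ u) :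
    ∃ C : ℝ, 0 < C ∧ ∃ B X₀ : ℕ, ∀ X : ℕ, X₀ ≤ X → ∀ A D : ℕ, Real.log X ^ B ≤ D →
      ∀ S : Finset ℕ, S ⊆ Ioc A (A + X) → (∀ m ∈ S, R u X m) → (AP k D S : ℝ) ≤ C * E k X D := by
  obtain ⟨⟨C, hC, B, n₀, h⟩, -⟩ := Pool.Agent.Y843.AC.fixed fc k u hk hu one_pos
  refine ⟨C, hC, B, n₀, ?_⟩
  intro X hX A D hD S hS hR
  have := h X hX A X D (by rw [Real.rpow_one]) le_rfl hD S hS (fun m hm => R_av (hR m hm))
  rw [pow_one] at this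
  exact this

theorem dn (k : ℕ) (hk : 1 ≤ k) (u : ℕ) (hu : 1 ≤ u) (δ : ℝ) (hδ : 0 < δ) :
    ∃ c : ℝ, 0 < c ∧ ∃ B X₀ : ℕ, ∀ X : ℕ, X₀ ≤ X → ∀ A D : ℕ, Real.log X ^ B ≤ D → D ≤ X →
      ∀ S : Finset ℕ, S ⊆ Ioc A (A + X) → (∀ m ∈ S, R u X m) →
      (δ * (X / Real.log X) ≤ S.card → c * E k X D ≤ AP k D S) ∧
      (δ * E k X D ≤ AP k D S → c * (X / Real.log X) ≤ S.card) := by
  obtain ⟨-, h⟩ := Pool.Agent.Y843.AC.fixed fc k u hk hu one_pos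
  obtain ⟨c, hc, B, n₀, h⟩ := h δ hδ
  refine ⟨c, hc, B, n₀, ?_⟩
  intro X hX A D hD hDX S hS hR
  have := h X hX A X D (by rw [Real.rpow_one]) le_rfl hD hDX S hS (fun m hm => R_av (hR m hm))
  rw [pow_one, mul_one_div] at this
  exact this

/-- (1) -/
theorem almost (k : ℕ) (hk : 1 ≤ k) : ∃ c C : ℝ, 0 < c ∧ 0 < C ∧ ∃ B X₀ : ℕ, ∀ X : ℕ, X₀ ≤ X →
    ∀ A D : ℕ, (A : ℝ) ≤ (X : ℝ) ^ (301 / 300 : ℝ) → Real.log X ^ B ≤ D → D ≤ X →
      c * E k X D ≤ AP k D (P3 A X) ∧ (AP k D (P3 A X) : ℝ) ≤ C * E k X D := by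
  classical
  have hP3 : ∀ A X : ℕ, Pool.Agent.Y843.QD.P3 1 0 1 A X = P3 A X := by
    intro A X
    unfold Pool.Agent.Y843.QD.P3 P3
    apply filter_congr
    intro n _
    rw [qv_eq]
  obtain ⟨c₀, hc₀, X₁, h1⟩ := Pool.Agent.Y843.QD.p3_quad 1 0 1 one_ne_zero nsq adm
  obtain ⟨C, hC, B, X₂, h2⟩ := up k hk 5 (by norm_num)
  obtain ⟨c, hc, B', X₃, h3⟩ := dn k hk 5 (by norm_num) c₀ hc₀
  refine ⟨c, C, hc, hC, max B B', max (max X₁ X₂) (max X₃ 3), ?_⟩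
  intro X hX A D hA hD hDX
  have hX3 : 3 ≤ X := by omega
  have hXr : (1 : ℝ) < X := by exact_mod_cast (show 1 < X by omega)
  have hl := Pool.Agent.Y843.AC.log_one hX3
  have hsub : P3 A X ⊆ Ioc A (A + X) := by
    unfold P3
    exact filter_subset _ _
  have hR : ∀ m ∈ P3 A X, R 5 X m := by
    intro m hm p hp hd
    unfold P3 at hm
    have h4 := (mem_filter.1 hm).2.2 p hp hd
    have h5 : (X : ℝ) ^ (1 / ((5 : ℕ) : ℝ)) < (X : ℝ) ^ (1 / 4 : ℝ) := by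
      apply Real.rpow_lt_rpow_of_exponent_lt hXr
      norm_num
    linarith
  have h4 := h1 X (by omega) A hA
  rw [hP3] at h4
  exact ⟨(h3 X (by omega) A D ((pow_le_pow_right₀ hl (le_max_right _ _)).trans hD) hDX _ hsub hR).1 (by
      rw [← mul_div_assoc]
      exact h4),
    h2 X (by omega) A D ((pow_le_pow_right₀ hl (le_max_left _ _)).trans hD) _ hsub hR⟩

/-- (2), all but few elements are in progressions -/
theorem her (k : ℕ) (hk : 1 ≤ k) (u : ℕ) (δ : ℝ) (hu : 1 ≤ u) (hδ : 0 < δ) :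
    ∃ B X₀ : ℕ, ∀ X : ℕ, X₀ ≤ X → ∀ A : ℕ, ∀ S : Finset ℕ, S ⊆ Ioc A (A + X) →
      (∀ m ∈ S, R u X m) → ((outside k (Real.log X ^ B) S).card : ℝ) ≤ δ * (X / Real.log X) := by
  classical
  obtain ⟨c, hc, B, n₁, h1⟩ := dn k hk u hu δ hδ
  obtain ⟨n₂, h2⟩ := Pool.Agent.Y843.HS.log_pow_le (B + 1) 1
  have e3 := (tendsto_natCast_atTop_atTop (R := ℝ)).eventually
    (Real.tendsto_log_atTop.eventually (Filter.eventually_ge_atTop (2 : ℝ)))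
  rw [Filter.eventually_atTop] at e3
  obtain ⟨n₃, h3⟩ := e3
  refine ⟨B + 1, max (max n₁ n₂) (max n₃ 3), ?_⟩
  intro X hX A S hS hR
  have g1 : Real.log X ^ (B + 1) ≤ (X : ℝ) := by
    have := h2 X (by omega)
    simpa using this
  have g2 : 2 ≤ Real.log X := h3 X (by omega)
  have hlB : 1 ≤ Real.log X ^ B := one_le_pow₀ (by linarith)
  obtain ⟨D, hD⟩ : ∃ D : ℕ, D = ⌈Real.log X ^ B⌉₊ := ⟨_, rfl⟩
  have hD1 : Real.log X ^ B ≤ D := by rw [hD]; exact Nat.le_ceil _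
  have hD2 : (D : ℝ) ≤ Real.log X ^ (B + 1) := by
    have h3 : (D : ℝ) < Real.log X ^ B + 1 := by rw [hD]; exact Nat.ceil_lt_add_one (by linarith)
    rw [pow_succ]
    nlinarith
  have hD0 : (0 : ℝ) < D := by linarith
  have hDX : D ≤ X := by exact_mod_cast hD2.trans g1
  obtain ⟨S', hS'⟩ : ∃ S', S' = outside k (Real.log X ^ (B + 1)) S := ⟨_, rfl⟩
  have hsub : S' ⊆ S := by
    rw [hS']
    unfold outside
    exact filter_subset _ _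
  have hAP : AP k D S' = 0 := by
    unfold AP
    rw [card_eq_zero, filter_eq_empty_iff]
    intro q hq hcon
    rw [mem_product, mem_Icc] at hq
    have h4 := hq.1
    rw [hS'] at h4
    unfold outside at h4
    rw [mem_filter] at h4
    apply h4.2
    refine ⟨q.1, q.2, hq.2.1, ?_, fun j hj => hsub (hcon j hj), 0, by omega, by omega⟩
    refine le_trans ?_ hD2
    exact_mod_cast hq.2.2
  rw [← hS']
  by_contra hcon
  rw [not_le] at hcon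
  have h5 := (h1 X (by omega) A D hD1 hDX S' (hsub.trans hS) (fun n hn => hR n (hsub hn))).1 hcon.le
  rw [hAP] at h5
  have h6 : (0 : ℝ) < X := by exact_mod_cast (show 0 < X by omega)
  have h7 : 0 < E k X D := by
    unfold E
    have : 0 < Real.log X := by linarith
    positivity
  have h8 : 0 < c * E k X D := mul_pos hc h7
  rw [Nat.cast_zero] at h5
  linarith

lemma Q_sub (x : ℕ) : Q x ⊆ Ioc 0 (0 + x) := by
  intro m hm
  have := mem_Icc.1 (mem_filter.1 hm).1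
  rw [mem_Ioc]
  omega

/-- for `Q`: exceptional small elements -/
theorem Q_dn (k : ℕ) (hk : 1 ≤ k) (δ : ℝ) (hδ : 0 < δ) :
    ∃ c : ℝ, 0 < c ∧ ∃ B x₀ : ℕ, ∀ x : ℕ, x₀ ≤ x → ∀ D : ℕ, Real.log x ^ B ≤ D → D ≤ x →
      (δ * (x / Real.log x) ≤ (Q x).card → c * E k x D ≤ AP k D (Q x)) ∧
      (δ * E k x D ≤ AP k D (Q x) → c * (x / Real.log x) ≤ (Q x).card) := by
  obtain ⟨-, h⟩ := Pool.Agent.Y843.AC.fixedR fc k 1 hk le_rfl one_pos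
  obtain ⟨c, hc, B, n₀, h⟩ := h δ hδ
  refine ⟨c, hc, B, n₀, ?_⟩
  intro x hx D hD hDx
  have := h x hx 0 x D (by rw [Real.rpow_one]) (by omega) hD hDx (Q x) (Q_sub x) (by
    intro a ha p hp hpa hcon
    have h1 := (avoid hp).1 hcon
    have h2 := (mem_filter.1 ha).2
    have h3 := (Nat.prime_dvd_prime_iff_eq hp h2).1 h1
    rw [h3] at hpa
    rw [Nat.cast_one, div_one, Real.rpow_one] at hpa
    have h4 : a ^ 2 + 1 ≤ a := by exact_mod_cast hpa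
    nlinarith)
  rw [pow_one, mul_one_div] at this
  exact this

theorem Q_up (k : ℕ) (hk : 1 ≤ k) :
    ∃ C : ℝ, 0 < C ∧ ∃ B x₀ : ℕ, ∀ x : ℕ, x₀ ≤ x → ∀ D : ℕ, Real.log x ^ B ≤ D →
      (AP k D (Q x) : ℝ) ≤ C * E k x D := by
  obtain ⟨⟨C, hC, B, n₀, h⟩, -⟩ := Pool.Agent.Y843.AC.fixedR fc k 1 hk le_rfl one_pos
  refine ⟨C, hC, B, n₀, ?_⟩
  intro x hx D hD
  have := h x hx 0 x D (by rw [Real.rpow_one]) (by omega) hD (Q x) (Q_sub x) (by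
    intro a ha p hp hpa hcon
    have h1 := (avoid hp).1 hcon
    have h2 := (mem_filter.1 ha).2
    have h3 := (Nat.prime_dvd_prime_iff_eq hp h2).1 h1
    rw [h3] at hpa
    rw [Nat.cast_one, div_one, Real.rpow_one] at hpa
    have h4 : a ^ 2 + 1 ≤ a := by exact_mod_cast hpa
    nlinarith)
  rw [pow_one] at this
  exact this

lemma big (B : ℕ) : ∃ n₀ : ℕ, ∀ n : ℕ, n₀ ≤ n → Real.log n ^ B ≤ n := by
  obtain ⟨n₀, h⟩ := Pool.Agent.Y843.HS.log_pow_le B 1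
  exact ⟨n₀, fun n hn => by simpa using h n hn⟩

/-- (3) -/
theorem order (k : ℕ) (hk : 1 ≤ k) (M : Set ℕ) :
    ((∃ c : ℝ, 0 < c ∧ ∃ x₀ : ℕ, ∀ x ∈ M, x₀ ≤ x → c * (x / Real.log x) ≤ (Q x).card) ↔
      ∃ c C : ℝ, 0 < c ∧ 0 < C ∧ ∃ B x₀ : ℕ, ∀ x ∈ M, x₀ ≤ x → ∀ D : ℕ, Real.log x ^ B ≤ D → D ≤ x →
        c * E k x D ≤ AP k D (Q x) ∧ (AP k D (Q x) : ℝ) ≤ C * E k x D) ∧
    ((∃ c : ℝ, 0 < c ∧ ∃ x₀ : ℕ, ∀ x ∈ M, x₀ ≤ x → c * (x / Real.log x) ≤ (Q x).card) ↔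
      ∃ c : ℝ, 0 < c ∧ ∀ B : ℕ, ∃ x₀ : ℕ, ∀ x ∈ M, x₀ ≤ x → ∃ D : ℕ, Real.log x ^ B ≤ D ∧ D ≤ x ∧
        c * E k x D ≤ AP k D (Q x)) := by
  classical
  have a1 : (∃ c : ℝ, 0 < c ∧ ∃ x₀ : ℕ, ∀ x ∈ M, x₀ ≤ x → c * (x / Real.log x) ≤ (Q x).card) →
      ∃ c C : ℝ, 0 < c ∧ 0 < C ∧ ∃ B x₀ : ℕ, ∀ x ∈ M, x₀ ≤ x → ∀ D : ℕ, Real.log x ^ B ≤ D → D ≤ x →
        c * E k x D ≤ AP k D (Q x) ∧ (AP k D (Q x) : ℝ) ≤ C * E k x D := by
    rintro ⟨δ, hδ, n₀, h⟩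
    obtain ⟨c, hc, B, n₁, h1⟩ := Q_dn k hk δ hδ
    obtain ⟨C, hC, B', n₂, h2⟩ := Q_up k hk
    refine ⟨c, C, hc, hC, max B B', max (max n₀ n₁) (max n₂ 3), ?_⟩
    intro x hxM hx D hD hDx
    have hl := Pool.Agent.Y843.AC.log_one (show 3 ≤ x by omega)
    exact ⟨(h1 x (by omega) D ((pow_le_pow_right₀ hl (le_max_left _ _)).trans hD) hDx).1
      (h x hxM (by omega)), h2 x (by omega) D ((pow_le_pow_right₀ hl (le_max_right _ _)).trans hD)⟩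
  have a2 : (∃ c C : ℝ, 0 < c ∧ 0 < C ∧ ∃ B x₀ : ℕ, ∀ x ∈ M, x₀ ≤ x → ∀ D : ℕ, Real.log x ^ B ≤ D →
        D ≤ x → c * E k x D ≤ AP k D (Q x) ∧ (AP k D (Q x) : ℝ) ≤ C * E k x D) →
      ∃ c : ℝ, 0 < c ∧ ∀ B : ℕ, ∃ x₀ : ℕ, ∀ x ∈ M, x₀ ≤ x → ∃ D : ℕ, Real.log x ^ B ≤ D ∧ D ≤ x ∧
        c * E k x D ≤ AP k D (Q x) := by
    rintro ⟨c, C, hc, _, B₀, n₀, h⟩
    refine ⟨c, hc, fun B => ?_⟩
    obtain ⟨n₁, h1⟩ := big B
    obtain ⟨n₂, h2⟩ := big B₀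
    refine ⟨max n₀ (max n₁ n₂), ?_⟩
    intro x hxM hx
    exact ⟨x, h1 x (by omega), le_rfl, (h x hxM (by omega) x (h2 x (by omega)) le_rfl).1⟩
  have a3 : (∃ c : ℝ, 0 < c ∧ ∀ B : ℕ, ∃ x₀ : ℕ, ∀ x ∈ M, x₀ ≤ x → ∃ D : ℕ, Real.log x ^ B ≤ D ∧
        D ≤ x ∧ c * E k x D ≤ AP k D (Q x)) →
      ∃ c : ℝ, 0 < c ∧ ∃ x₀ : ℕ, ∀ x ∈ M, x₀ ≤ x → c * (x / Real.log x) ≤ (Q x).card := by
    rintro ⟨δ, hδ, h⟩
    obtain ⟨c, hc, B, n₁, h1⟩ := Q_dn k hk δ hδ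
    obtain ⟨n₀, h0⟩ := h B
    refine ⟨c, hc, max n₀ n₁, ?_⟩
    intro x hxM hx
    obtain ⟨D, hD, hDx, hE⟩ := h0 x hxM ((le_max_left _ _).trans hx)
    exact (h1 x ((le_max_right _ _).trans hx) D hD hDx).2 hE
  exact ⟨⟨a1, fun h => a3 (a2 h)⟩, ⟨fun h => a2 (a1 h), a3⟩⟩

/-- Let `k ≥ 1` and `E = X D / log ^ k X`.

1. There are `0 < c ≤ C` and `B` such that for all large `X`, all `A ≤ X ^ (301/300)` and all `D` between
  `log ^ B X` and `X` the number of the progressions of `k` terms, with differences at most `D`, of integers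
  `m` of `(A, A + X]` for which `m ^ 2 + 1` has at most three prime factors, all at least `X ^ (1/4)`, is
  between `c E` and `C E`.
2. Let `S` be a set of integers `m` of `(A, A + X]`, `A` arbitrary, such that `m ^ 2 + 1` has no prime factor
  `≤ X ^ (1/u)`, and `D ≥ log ^ B X`. `S` has at most `C E` progressions of `k` terms with differences at most
  `D`; and for every `δ > 0`, if `D ≤ X`, it has at least `c E` of them if it has at least `δ X / log X` elements,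
  and conversely it has at least `c X / log X` elements if it has at least `δ E` of these progressions. All
  elements of `S` but `δ X / log X` lie in progressions of `k` elements of `S` with differences at most
  `log ^ B X`.
3. For every set `M` of natural numbers: `#{m ≤ x : m ^ 2 + 1 prime} ≫ x / log x` for the large `x ∈ M` if and
  only if the number of the progressions of `k` such `m` with differences at most `D` is of the order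
  `x D / log ^ k x` for all `D` between a power of `log x` and `x`, and if and only if (with one constant) it is
  `≫ x D / log ^ k x` for a single `D ≥ log ^ B x` for every `x`, for every `B`. -/
theorem result (k : ℕ) (hk : 1 ≤ k) :
    (∃ c C : ℝ, 0 < c ∧ 0 < C ∧ ∃ B X₀ : ℕ, ∀ X : ℕ, X₀ ≤ X →
      ∀ A D : ℕ, (A : ℝ) ≤ (X : ℝ) ^ (301 / 300 : ℝ) → Real.log X ^ B ≤ D → D ≤ X →
        c * E k X D ≤ AP k D (P3 A X) ∧ (AP k D (P3 A X) : ℝ) ≤ C * E k X D) ∧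
    (∀ u : ℕ, 1 ≤ u →
      (∃ C : ℝ, 0 < C ∧ ∃ B X₀ : ℕ, ∀ X : ℕ, X₀ ≤ X → ∀ A D : ℕ, Real.log X ^ B ≤ D →
        ∀ S : Finset ℕ, S ⊆ Ioc A (A + X) → (∀ m ∈ S, R u X m) → (AP k D S : ℝ) ≤ C * E k X D) ∧
      (∀ δ : ℝ, 0 < δ → ∃ c : ℝ, 0 < c ∧ ∃ B X₀ : ℕ, ∀ X : ℕ, X₀ ≤ X → ∀ A D : ℕ,
        Real.log X ^ B ≤ D → D ≤ X → ∀ S : Finset ℕ, S ⊆ Ioc A (A + X) → (∀ m ∈ S, R u X m) →
        (δ * (X / Real.log X) ≤ S.card → c * E k X D ≤ AP k D S) ∧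
        (δ * E k X D ≤ AP k D S → c * (X / Real.log X) ≤ S.card)) ∧
      (∀ δ : ℝ, 0 < δ → ∃ B X₀ : ℕ, ∀ X : ℕ, X₀ ≤ X → ∀ A : ℕ, ∀ S : Finset ℕ, S ⊆ Ioc A (A + X) →
        (∀ m ∈ S, R u X m) → ((outside k (Real.log X ^ B) S).card : ℝ) ≤ δ * (X / Real.log X))) ∧
    (∀ M : Set ℕ,
      ((∃ c : ℝ, 0 < c ∧ ∃ x₀ : ℕ, ∀ x ∈ M, x₀ ≤ x → c * (x / Real.log x) ≤ (Q x).card) ↔
        ∃ c C : ℝ, 0 < c ∧ 0 < C ∧ ∃ B x₀ : ℕ, ∀ x ∈ M, x₀ ≤ x → ∀ D : ℕ, Real.log x ^ B ≤ D → D ≤ x →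
          c * E k x D ≤ AP k D (Q x) ∧ (AP k D (Q x) : ℝ) ≤ C * E k x D) ∧
      ((∃ c : ℝ, 0 < c ∧ ∃ x₀ : ℕ, ∀ x ∈ M, x₀ ≤ x → c * (x / Real.log x) ≤ (Q x).card) ↔
        ∃ c : ℝ, 0 < c ∧ ∀ B : ℕ, ∃ x₀ : ℕ, ∀ x ∈ M, x₀ ≤ x → ∃ D : ℕ, Real.log x ^ B ≤ D ∧ D ≤ x ∧
          c * E k x D ≤ AP k D (Q x))) :=
  ⟨almost k hk, fun u hu => ⟨up k hk u hu, fun δ hδ => dn k hk u hu δ hδ,
    fun δ hδ => her k hk u δ hu hδ⟩, fun M => order k hk M⟩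

end Pool.Agent.Results.MP_f1a94e_nt.ProgressionCounts
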